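import Pool.Agent.H79.TH.Lin
import Pool.Agent.H42.PS.Fin

/-!
# The price of the symmetry under linear groups

`lin_price`: if refutations which are symmetric under a group with `r` cells have size at least
`2 ^ (r ^ (1 - δ) / C)`, then refutations over the `n = p ^ m` points of `F_p ^ m` which are symmetric under a
group which contains all upper unitriangular linear maps have size at least `2 ^ (m ^ (2 - 2 δ) / C')`.
-/

set_option autoImplicit false

namespace Pool.Agent.H79.TH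

open Pool.Agent.H79.CQ
open Pool.Agent.H42.CS (Ax Refutation)
open Pool.Agent.H42.PS (LocSymm)

theorem lin_price {Rel : ℕ → Type} {T : Set (Ax Rel)} {δ : ℝ} (h0 : 0 < δ) (h1 : δ < 1) {n C : ℕ} (hC : 0 < C)
    (eng : ∀ (Γ : Subgroup (Equiv.Perm (Fin n))) (p : ℕ) (_ : Fact p.Prime) (r : ℕ) (M : Cells p (Fin n) r),
      M.H ≤ Γ → ∀ (R : Refutation T (Fin n)) (B : ℕ), LocSymm R Γ B →
        (2 : ℝ) ^ ((r : ℝ) ^ (1 - δ) / C) ≤ R.size * B)
    (p : ℕ) (hp : p.Prime) (m : ℕ) (hm : 2 ≤ m) (e : (Fin m → ZMod p) ≃ Fin n) (Γ : Subgroup (Equiv.Perm (Fin n)))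
    (hΓ : ∀ A : Matrix (Fin m) (Fin m) (ZMod p), (∀ i, A i i = 1) → (∀ i j, j < i → A i j = 0) →
      ∃ g ∈ Γ, ∀ v, g (e v) = e (A.mulVec v))
    (R : Refutation T (Fin n)) (B : ℕ) (hR : LocSymm R Γ B) :
    (2 : ℝ) ^ ((m : ℝ) ^ (2 * (1 - δ)) / ((144 * C : ℕ) : ℝ)) ≤ R.size * B := by
  have hp' : Fact p.Prime := ⟨hp⟩
  obtain ⟨r, M, hr, hM⟩ := lin hm e Γ hΓ
  exact le_trans (Real.rpow_le_rpow_of_exponent_le (by norm_num) (lin_num h0 h1 hC hr)) (eng Γ p hp' r M hM R B hR)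

end Pool.Agent.H79.TH
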