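import Pool.Agent.H79.CQ.Grd

/-!
# Cells for an elementary abelian group of order `n ^ O(log n)`

`P = X × Y`, `X = F_p ^ (s + u)`, `Y = F_p ^ t`, the group `Hom (X, Y)` acts by `(x, y) ↦ (x, y + A x)`. The cell
`(j, k)` consists of the points with first coordinate `x = (e_k, tag j)` and is divided by the coordinate `j` of `y`.
-/

set_option autoImplicit false

namespace Pool.Agent.H79.TH

open Pool.Agent.H79.CQ

variable {p : ℕ}

/-- the points -/
abbrev PXY (p s u t : ℕ) : Type := (Fin s ⊕ Fin u → ZMod p) × (Fin t → ZMod p)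

/-- the permutation `(x, y) ↦ (x, y + A x)` -/
def shr {s u t : ℕ} (A : Matrix (Fin t) (Fin s ⊕ Fin u) (ZMod p)) : Equiv.Perm (PXY p s u t) where
  toFun q := (q.1, q.2 + A.mulVec q.1)
  invFun q := (q.1, q.2 - A.mulVec q.1)
  left_inv q := by simp
  right_inv q := by simp

theorem shr_apply {s u t : ℕ} (A : Matrix (Fin t) (Fin s ⊕ Fin u) (ZMod p)) (q : PXY p s u t) :
    shr A q = (q.1, q.2 + A.mulVec q.1) := rfl

theorem shr_add {s u t : ℕ} (A B : Matrix (Fin t) (Fin s ⊕ Fin u) (ZMod p)) :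
    shr (A + B) = shr A * shr B := by
  ext q : 1
  rw [Equiv.Perm.mul_apply, shr_apply, shr_apply, shr_apply, Matrix.add_mulVec]
  refine Prod.ext rfl ?_
  show q.2 + (A.mulVec q.1 + B.mulVec q.1) = q.2 + B.mulVec q.1 + A.mulVec q.1
  abel

/-- the homomorphism -/
def shrHom (p s u t : ℕ) : Multiplicative (Matrix (Fin t) (Fin s ⊕ Fin u) (ZMod p)) →* Equiv.Perm (PXY p s u t) :=
  MonoidHom.mk' (fun A => shr (Multiplicative.toAdd A)) (fun _ _ => shr_add _ _)

theorem shrHom_apply {s u t : ℕ} (A : Multiplicative (Matrix (Fin t) (Fin s ⊕ Fin u) (ZMod p))) (q : PXY p s u t) :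
    shrHom p s u t A q = (q.1, q.2 + (Multiplicative.toAdd A).mulVec q.1) := rfl

theorem mem_range_iff {s u t : ℕ} {g : Equiv.Perm (PXY p s u t)} : g ∈ (shrHom p s u t).range ↔ ∃ A, g = shr A := by
  constructor
  · rintro ⟨A, rfl⟩
    exact ⟨Multiplicative.toAdd A, rfl⟩
  · rintro ⟨A, rfl⟩
    exact ⟨Multiplicative.ofAdd A, rfl⟩

/-- the first coordinate of the points of the cell `(j, k)` -/
def vx {s u t : ℕ} (tag : Fin t → Fin u → ZMod p) (i : Fin t × Fin s) : Fin s ⊕ Fin u → ZMod p :=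
  Sum.elim (Pi.single i.2 1) (tag i.1)

theorem vx_inj [hp : Fact p.Prime] {s u t : ℕ} {tag : Fin t → Fin u → ZMod p} (ht : Function.Injective tag)
    {i j : Fin t × Fin s} (h : vx tag i = vx tag j) : i = j := by
  have h1 : tag i.1 = tag j.1 := by
    funext a
    exact congrFun h (Sum.inr a)
  have h2 : i.2 = j.2 := by
    by_contra hne
    have h3 := congrFun h (Sum.inl i.2)
    simp only [vx, Sum.elim_inl, Pi.single_eq_same] at h3
    rw [Pi.single_eq_of_ne hne] at h3
    exact one_ne_zero h3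
  exact Prod.ext (ht h1) h2

/-- the cells on `X × Y` -/
def cellsXY [hp : Fact p.Prime] {s u t : ℕ} (tag : Fin t → Fin u → ZMod p) (ht : Function.Injective tag) :
    Cells p (PXY p s u t) (t * s) where
  H := (shrHom p s u t).range
  C i b := {q | q.1 = vx tag (finProdFinEquiv.symm i) ∧ q.2 (finProdFinEquiv.symm i).1 = b}
  pr g i := ((g : Equiv.Perm (PXY p s u t)) (vx tag (finProdFinEquiv.symm i), 0)).2 (finProdFinEquiv.symm i).1
  pr_mul g g' := by
    obtain ⟨A, hA⟩ := mem_range_iff.1 g.2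
    obtain ⟨B, hB⟩ := mem_range_iff.1 g'.2
    funext i
    show ((g : Equiv.Perm (PXY p s u t)) ((g' : Equiv.Perm (PXY p s u t)) (vx tag (finProdFinEquiv.symm i), 0))).2 _ =
      ((g : Equiv.Perm (PXY p s u t)) (vx tag (finProdFinEquiv.symm i), 0)).2 _ +
      ((g' : Equiv.Perm (PXY p s u t)) (vx tag (finProdFinEquiv.symm i), 0)).2 _
    rw [hA, hB]
    simp only [shr_apply, zero_add, Pi.add_apply]
    ring
  pr_onto c := by
    refine ⟨⟨shr (Matrix.of fun j l => Sum.elim (fun k => c (finProdFinEquiv (j, k))) (fun _ => 0) l),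
      mem_range_iff.2 ⟨_, rfl⟩⟩, ?_⟩
    funext i
    obtain ⟨jk, rfl⟩ := finProdFinEquiv.surjective i
    show (0 + Matrix.mulVec _ _ : Fin t → ZMod p) _ = _
    rw [zero_add]
    simp only [Equiv.symm_apply_apply, Matrix.mulVec, dotProduct, Matrix.of_apply, Fintype.sum_sum_type, Sum.elim_inl,
      Sum.elim_inr, zero_mul, Finset.sum_const_zero, add_zero, vx, Pi.single_apply, mul_ite, mul_one, mul_zero,
      Finset.sum_ite_eq', Finset.mem_univ, if_true]
  ne i b := ⟨(vx tag (finProdFinEquiv.symm i), fun _ => b), rfl, rfl⟩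
  disj i b j c hne := by
    rw [Set.disjoint_left]
    rintro q ⟨h1, h2⟩ ⟨h3, h4⟩
    apply hne
    have h5 : finProdFinEquiv.symm i = finProdFinEquiv.symm j := vx_inj ht (h1.symm.trans h3)
    have h6 : i = j := finProdFinEquiv.symm.injective h5
    subst h6
    rw [← h2, ← h4]
  map g i b := by
    obtain ⟨A, hA⟩ := mem_range_iff.1 g.2
    show (g : Equiv.Perm (PXY p s u t)) '' {q | q.1 = vx tag (finProdFinEquiv.symm i) ∧ q.2 (finProdFinEquiv.symm i).1 = b} =
      {q | q.1 = vx tag (finProdFinEquiv.symm i) ∧ q.2 (finProdFinEquiv.symm i).1 =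
        b + ((g : Equiv.Perm (PXY p s u t)) (vx tag (finProdFinEquiv.symm i), 0)).2 (finProdFinEquiv.symm i).1}
    rw [hA]
    ext q
    constructor
    · rintro ⟨q', ⟨h1, h2⟩, rfl⟩
      refine ⟨h1, ?_⟩
      simp only [shr_apply, zero_add, Pi.add_apply]
      rw [h1, h2]
    · rintro ⟨h1, h2⟩
      refine ⟨(q.1, q.2 - A.mulVec q.1), ⟨h1, ?_⟩, ?_⟩
      · simp only [shr_apply, zero_add] at h2
        simp only [Pi.sub_apply]
        rw [h2, h1]
        ring
      · rw [shr_apply]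
        exact Prod.ext rfl (sub_add_cancel _ _)

/-- transport of cells -/
def tpc {P P' : Type} {r : ℕ} (M : Cells p P r) (e : P ≃ P') : Cells p P' r where
  H := M.H.map (Equiv.permCongrHom e).toMonoidHom
  C i b := e '' M.C i b
  pr g := M.pr ⟨(Equiv.permCongrHom e).symm g, by
    obtain ⟨h, hh, hg⟩ := g.2
    rw [← hg]
    show (Equiv.permCongrHom e).symm ((Equiv.permCongrHom e) h) ∈ M.H
    rw [MulEquiv.symm_apply_apply]
    exact hh⟩
  pr_mul g g' := by
    rw [← M.pr_mul]
    congr 1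
    apply Subtype.ext
    show (Equiv.permCongrHom e).symm ((g : Equiv.Perm P') * (g' : Equiv.Perm P')) = _
    rw [map_mul]
    rfl
  pr_onto c := by
    obtain ⟨g, hg⟩ := M.pr_onto c
    refine ⟨⟨(Equiv.permCongrHom e) g, ⟨g, g.2, rfl⟩⟩, ?_⟩
    rw [← hg]
    show M.pr _ = M.pr _
    refine congrArg M.pr (Subtype.ext ?_)
    show (Equiv.permCongrHom e).symm ((Equiv.permCongrHom e) (g : Equiv.Perm P)) = g
    rw [MulEquiv.symm_apply_apply]
  ne i b := (M.ne i b).image e
  disj i b j c hne := (Set.disjoint_image_iff e.injective).2 (M.disj i b j c hne)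
  map g i b := by
    obtain ⟨h, hh, hg⟩ := g.2
    have e1 : (⟨(Equiv.permCongrHom e).symm (g : Equiv.Perm P'), by
        rw [← hg]
        show (Equiv.permCongrHom e).symm ((Equiv.permCongrHom e) h) ∈ M.H
        rw [MulEquiv.symm_apply_apply]
        exact hh⟩ : M.H) = ⟨h, hh⟩ := by
      apply Subtype.ext
      show (Equiv.permCongrHom e).symm (g : Equiv.Perm P') = h
      rw [← hg]
      show (Equiv.permCongrHom e).symm ((Equiv.permCongrHom e) h) = h
      rw [MulEquiv.symm_apply_apply]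
    rw [e1, ← M.map ⟨h, hh⟩ i b, ← hg]
    show (e.permCongr h) '' (e '' M.C i b) = e '' (h '' M.C i b)
    ext x
    simp only [Set.mem_image, exists_exists_and_eq_and, Equiv.permCongr_apply, Equiv.symm_apply_apply]

theorem cel [hp : Fact p.Prime] {s u t : ℕ} (h : t ≤ p ^ u) : ∃ M : Cells p (Fin (p ^ (s + u + t))) (t * s),
    (∀ g ∈ M.H, ∀ g' ∈ M.H, g * g' = g' * g) ∧ (∀ g ∈ M.H, g ^ p = 1) ∧ Nat.card M.H ≤ p ^ (t * (s + u)) := by
  have hp0 : NeZero p := ⟨hp.out.ne_zero⟩
  obtain ⟨tag⟩ : Nonempty (Fin t ↪ (Fin u → ZMod p)) := by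
    refine Function.Embedding.nonempty_of_card_le ?_
    rw [Fintype.card_fin, Fintype.card_fun, ZMod.card, Fintype.card_fin]
    exact h
  have hcard : Fintype.card (PXY p s u t) = p ^ (s + u + t) := by
    rw [Fintype.card_prod, Fintype.card_fun, Fintype.card_fun, ZMod.card, Fintype.card_sum, Fintype.card_fin,
      Fintype.card_fin, Fintype.card_fin, ← pow_add]
  have e : PXY p s u t ≃ Fin (p ^ (s + u + t)) := Fintype.equivFinOfCardEq hcard
  refine ⟨tpc (cellsXY tag tag.injective) e, ?_, ?_, ?_⟩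
  · rintro _ ⟨g, hg, rfl⟩ _ ⟨g', hg', rfl⟩
    obtain ⟨A, rfl⟩ := mem_range_iff.1 hg
    obtain ⟨B, rfl⟩ := mem_range_iff.1 hg'
    rw [← map_mul, ← map_mul, ← shr_add, ← shr_add, add_comm A B]
  · rintro _ ⟨g, hg, rfl⟩
    obtain ⟨A, rfl⟩ := hg
    rw [← map_pow, ← map_pow]
    have h1 : A ^ p = 1 := by
      apply Multiplicative.toAdd.injective
      rw [toAdd_pow, toAdd_one]
      ext i j
      rw [Matrix.smul_apply, nsmul_eq_mul, CharP.cast_eq_zero, zero_mul]
      rfl
    rw [h1, map_one, map_one]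
  · have hfm : Finite (Multiplicative (Matrix (Fin t) (Fin s ⊕ Fin u) (ZMod p))) :=
      inferInstanceAs (Finite (Fin t → (Fin s ⊕ Fin u) → ZMod p))
    have h1 : Nat.card ((shrHom p s u t).range.map (Equiv.permCongrHom e).toMonoidHom) ≤
        Nat.card (shrHom p s u t).range :=
      Nat.card_le_card_of_surjective _ (MonoidHom.subgroupMap_surjective _ _)
    have h2 : Nat.card (shrHom p s u t).range ≤ Nat.card (Multiplicative (Matrix (Fin t) (Fin s ⊕ Fin u) (ZMod p))) :=
      Nat.card_le_card_of_surjective _ (shrHom p s u t).rangeRestrict_surjective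
    have h3 : Nat.card (Multiplicative (Matrix (Fin t) (Fin s ⊕ Fin u) (ZMod p))) = p ^ (t * (s + u)) := by
      show Nat.card (Fin t → (Fin s ⊕ Fin u) → ZMod p) = _
      rw [Nat.card_fun, Nat.card_fun, Nat.card_zmod, Nat.card_sum, Nat.card_fin, Nat.card_fin, Nat.card_fin,
        ← pow_mul, mul_comm]
    exact h1.trans (h2.trans h3.le)

end Pool.Agent.H79.TH
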