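import Pool.Agent.H79.TH.Cel
import Mathlib.Data.Matrix.Block

/-!
# Groups which contain the unitriangular matrices

`lin`: a group of permutations of the `p ^ m` points of `F_p ^ m` which contains all upper unitriangular linear maps
contains the group of at least `m ^ 2 / 144` cells.
-/

set_option autoImplicit false

namespace Pool.Agent.H79.TH

open Pool.Agent.H79.CQ

variable {p : ℕ}

/-- the indices -/
def ph (s u t : ℕ) : Fin t ⊕ (Fin s ⊕ Fin u) ≃ Fin (t + (s + u)) :=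
  (Equiv.sumCongr (Equiv.refl _) finSumFinEquiv).trans finSumFinEquiv

/-- the points -/
def wq (p s u t : ℕ) : PXY p s u t ≃ (Fin (t + (s + u)) → ZMod p) where
  toFun q i := Sum.elim q.2 q.1 ((ph s u t).symm i)
  invFun v := (fun j => v (ph s u t (Sum.inr j)), fun j => v (ph s u t (Sum.inl j)))
  left_inv q := by
    simp only [Equiv.symm_apply_apply, Sum.elim_inr, Sum.elim_inl]
  right_inv v := by
    funext i
    obtain ⟨a, rfl⟩ := (ph s u t).surjective i
    show Sum.elim (fun j => v (ph s u t (Sum.inl j))) (fun j => v (ph s u t (Sum.inr j)))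
      ((ph s u t).symm (ph s u t a)) = _
    rw [Equiv.symm_apply_apply]
    rcases a with a | a <;> rfl

/-- the matrix -/
def um {s u t : ℕ} (A : Matrix (Fin t) (Fin s ⊕ Fin u) (ZMod p)) :
    Matrix (Fin (t + (s + u))) (Fin (t + (s + u))) (ZMod p) :=
  fun i j => Matrix.fromBlocks 1 A 0 1 ((ph s u t).symm i) ((ph s u t).symm j)

theorem um_diag {s u t : ℕ} (A : Matrix (Fin t) (Fin s ⊕ Fin u) (ZMod p)) (i : Fin (t + (s + u))) : um A i i = 1 := by
  obtain ⟨a, rfl⟩ := (ph s u t).surjective i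
  simp only [um, Equiv.symm_apply_apply]
  rcases a with a | a
  · rw [Matrix.fromBlocks_apply₁₁, Matrix.one_apply_eq]
  · rw [Matrix.fromBlocks_apply₂₂, Matrix.one_apply_eq]

theorem um_low {s u t : ℕ} (A : Matrix (Fin t) (Fin s ⊕ Fin u) (ZMod p)) (i j : Fin (t + (s + u))) (h : j < i) :
    um A i j = 0 := by
  obtain ⟨a, rfl⟩ := (ph s u t).surjective i
  obtain ⟨b, rfl⟩ := (ph s u t).surjective j
  have hne : a ≠ b := fun h1 => by
    rw [h1] at h
    exact lt_irrefl _ h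
  simp only [um, Equiv.symm_apply_apply]
  rcases a with a | a <;> rcases b with b | b
  · rw [Matrix.fromBlocks_apply₁₁]
    exact Matrix.one_apply_ne fun h1 => hne (congrArg _ h1)
  · exfalso
    have h1 : ((ph s u t) (Sum.inr b) : ℕ) = t + (finSumFinEquiv b : ℕ) := rfl
    have h2 : ((ph s u t) (Sum.inl a) : ℕ) = a := rfl
    have h3 : ((ph s u t) (Sum.inr b) : ℕ) < ((ph s u t) (Sum.inl a) : ℕ) := h
    omega
  · rw [Matrix.fromBlocks_apply₂₁, Matrix.zero_apply]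
  · rw [Matrix.fromBlocks_apply₂₂]
    exact Matrix.one_apply_ne fun h1 => hne (congrArg _ h1)

theorem um_mul {s u t : ℕ} (A : Matrix (Fin t) (Fin s ⊕ Fin u) (ZMod p)) (q : PXY p s u t) :
    (um A).mulVec (wq p s u t q) = wq p s u t (shr A q) := by
  funext i
  obtain ⟨a, rfl⟩ := (ph s u t).surjective i
  show ∑ j, um A (ph s u t a) j * wq p s u t q j = Sum.elim _ _ ((ph s u t).symm (ph s u t a))
  rw [← (ph s u t).sum_comp]
  simp only [um, wq, Equiv.coe_fn_mk, Equiv.symm_apply_apply, Fintype.sum_sum_type (α₁ := Fin t), Sum.elim_inl,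
    Sum.elim_inr, shr_apply]
  rcases a with a | a
  · simp only [Matrix.fromBlocks_apply₁₁, Matrix.fromBlocks_apply₁₂, Matrix.one_apply, ite_mul, one_mul, zero_mul,
      Finset.sum_ite_eq, Finset.mem_univ, if_true, Sum.elim_inl, Pi.add_apply]
    rfl
  · simp only [Matrix.fromBlocks_apply₂₁, Matrix.fromBlocks_apply₂₂, Matrix.zero_apply, zero_mul, Finset.sum_const_zero,
      zero_add, Matrix.one_apply, ite_mul, one_mul, Finset.sum_ite_eq, Finset.mem_univ, if_true, Sum.elim_inr]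

theorem lin' [hp : Fact p.Prime] {s u t n : ℕ} (h : t ≤ p ^ u) (e : (Fin (t + (s + u)) → ZMod p) ≃ Fin n)
    (Γ : Subgroup (Equiv.Perm (Fin n)))
    (hΓ : ∀ A : Matrix (Fin (t + (s + u))) (Fin (t + (s + u))) (ZMod p), (∀ i, A i i = 1) → (∀ i j, j < i → A i j = 0) →
      ∃ g ∈ Γ, ∀ v, g (e v) = e (A.mulVec v)) :
    ∃ M : Cells p (Fin n) (t * s), M.H ≤ Γ := by
  have hp0 : NeZero p := ⟨hp.out.ne_zero⟩
  obtain ⟨tag⟩ : Nonempty (Fin t ↪ (Fin u → ZMod p)) := by
    refine Function.Embedding.nonempty_of_card_le ?_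
    rw [Fintype.card_fin, Fintype.card_fun, ZMod.card, Fintype.card_fin]
    exact h
  refine ⟨tpc (cellsXY tag tag.injective) ((wq p s u t).trans e), ?_⟩
  rintro _ ⟨g, hg, rfl⟩
  obtain ⟨A, rfl⟩ := mem_range_iff.1 hg
  obtain ⟨G, hG, hG2⟩ := hΓ (um A) (um_diag A) (um_low A)
  have h1 : (Equiv.permCongrHom ((wq p s u t).trans e)).toMonoidHom (shr A) = G := by
    ext1 y
    obtain ⟨q, rfl⟩ := ((wq p s u t).trans e).surjective y
    show ((wq p s u t).trans e).permCongr (shr A) _ = _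
    rw [Equiv.permCongr_apply, Equiv.symm_apply_apply, Equiv.trans_apply, Equiv.trans_apply, hG2, um_mul]
  rw [h1]
  exact hG

private theorem two_mul_add_le {k : ℕ} (h : 3 ≤ k) : 2 * k + 1 ≤ 2 ^ k := by
  induction k, h using Nat.le_induction with
  | base => norm_num
  | succ k hk ih =>
    rw [pow_succ]
    omega

theorem lin {p : ℕ} [hp : Fact p.Prime] {m n : ℕ} (hm : 2 ≤ m) (e : (Fin m → ZMod p) ≃ Fin n)
    (Γ : Subgroup (Equiv.Perm (Fin n)))
    (hΓ : ∀ A : Matrix (Fin m) (Fin m) (ZMod p), (∀ i, A i i = 1) → (∀ i j, j < i → A i j = 0) →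
      ∃ g ∈ Γ, ∀ v, g (e v) = e (A.mulVec v)) :
    ∃ (r : ℕ) (M : Cells p (Fin n) r), m ^ 2 ≤ 144 * r ∧ M.H ≤ Γ := by
  rcases le_or_gt 12 m with h12 | h12
  · obtain ⟨t, ht⟩ : ∃ t, t = m / 2 := ⟨_, rfl⟩
    obtain ⟨u, hu⟩ : ∃ u, u = m / 4 := ⟨_, rfl⟩
    obtain ⟨s, hs⟩ : ∃ s, t + (s + u) = m := ⟨m - t - u, by omega⟩
    have h1 : t ≤ p ^ u := by
      have h2 := two_mul_add_le (k := u) (by omega)
      have h3 : 2 ^ u ≤ p ^ u := Nat.pow_le_pow_left hp.out.two_le u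
      omega
    have h4 : m ^ 2 ≤ 144 * (t * s) := by
      have h5 : m ≤ 4 * t := by omega
      have h6 : m ≤ 4 * s := by omega
      calc m ^ 2 = m * m := pow_two m
        _ ≤ (4 * t) * (4 * s) := Nat.mul_le_mul h5 h6
        _ = 16 * (t * s) := by ring
        _ ≤ 144 * (t * s) := Nat.mul_le_mul_right _ (by norm_num)
    subst hs
    obtain ⟨M, hM⟩ := lin' h1 e Γ hΓ
    exact ⟨t * s, M, h4, hM⟩
  · obtain ⟨s, rfl⟩ : ∃ s, m = 1 + (s + 0) := ⟨m - 1, by omega⟩
    obtain ⟨M, hM⟩ := lin' (s := s) (u := 0) (t := 1) (by norm_num) e Γ hΓ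
    refine ⟨1 * s, M, ?_, hM⟩
    have h1 : 1 ≤ s := by omega
    have h2 : s ≤ 10 := by omega
    nlinarith

/-- the clause: from the bound for cells to the bound for groups which contain the unitriangular matrices -/
theorem lin_num {m r C : ℕ} {δ : ℝ} (h0 : 0 < δ) (h1 : δ < 1) (hC : 0 < C) (hr : m ^ 2 ≤ 144 * r) :
    (m : ℝ) ^ (2 * (1 - δ)) / ((144 * C : ℕ) : ℝ) ≤ (r : ℝ) ^ (1 - δ) / C := by
  have hδ : 0 < 1 - δ := by linarith
  have hCr : (0 : ℝ) < C := by exact_mod_cast hC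
  have h2 : (m : ℝ) ^ (2 * (1 - δ)) ≤ 144 * (r : ℝ) ^ (1 - δ) := by
    rw [Real.rpow_mul (by positivity), Real.rpow_two]
    have h3 : ((m : ℝ) ^ 2) ≤ 144 * r := by exact_mod_cast hr
    calc ((m : ℝ) ^ 2) ^ (1 - δ) ≤ (144 * (r : ℝ)) ^ (1 - δ) := Real.rpow_le_rpow (by positivity) h3 hδ.le
      _ = (144 : ℝ) ^ (1 - δ) * (r : ℝ) ^ (1 - δ) := Real.mul_rpow (by norm_num) (by positivity)
      _ ≤ 144 * (r : ℝ) ^ (1 - δ) := by
        refine mul_le_mul_of_nonneg_right ?_ (by positivity)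
        calc (144 : ℝ) ^ (1 - δ) ≤ (144 : ℝ) ^ (1 : ℝ) :=
              Real.rpow_le_rpow_of_exponent_le (by norm_num) (by linarith)
          _ = 144 := Real.rpow_one 144
  push_cast
  rw [div_le_div_iff₀ (by positivity) hCr]
  nlinarith

end Pool.Agent.H79.TH
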